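import Pool.Agent.Lib.H98TF.Exact
import Pool.Agent.Lib.H85TF.DrawX

/-!
# H63D, file D: the functor step for '3-connected with a covering property, or Hamiltonian'

`A G W`: `G[W]` is disconnected and, if `G` is 2-connected, `W` is not covered or is separated by two vertices outside
`W`. The two acyclicity statements (L1), (L2) are hypotheses here.
-/

set_option autoImplicit false

namespace H63D

open Finset H98P H98Z H98M H63F H30F H98TF

variable {V : Type*} [Fintype V] [DecidableEq V]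

/-- The vertices `x`, `y` separate two vertices of `W`. -/
def Sep (G : Finset (Sym2 V)) (x y : V) (W : Finset V) : Prop :=
  ∃ C D : Finset V, Disjoint C D ∧ C ∪ D = (univ.erase x).erase y ∧ (∀ a ∈ C, ∀ b ∈ D, s(a, b) ∉ G) ∧
    (W ∩ C).Nonempty ∧ (W ∩ D).Nonempty

/-- `W` is separated by two vertices outside `W`. -/
def X2 (G : Finset (Sym2 V)) (W : Finset V) : Prop := ∃ x y, x ≠ y ∧ x ∉ W ∧ y ∉ W ∧ Sep G x y W

/-- No two vertices separate `G`. -/
def No2 (G : Finset (Sym2 V)) : Prop := ∀ x y : V, x ≠ y → ¬ Disc ((univ.erase x).erase y) G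

/-- A list of all vertices which is a Hamiltonian cycle of `G`. -/
def Ham (G : Finset (Sym2 V)) : Prop := ∃ l : List V, 3 ≤ l.length ∧ l.Nodup ∧ (∀ v, v ∈ l) ∧
  l.IsChain (fun a b => s(a, b) ∈ G) ∧ ∀ a ∈ l.head?, ∀ b ∈ l.getLast?, s(b, a) ∈ G

theorem x2_mono {G G' : Finset (Sym2 V)} (h : G ⊆ G') {W : Finset V} (hW : X2 G' W) : X2 G W := by
  obtain ⟨x, y, h1, h2, h3, C, D, h4, h5, h6, h7⟩ := hW
  exact ⟨x, y, h1, h2, h3, C, D, h4, h5, fun a ha b hb hab => h6 a ha b hb (h hab), h7⟩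

theorem x2_disc {G : Finset (Sym2 V)} {W : Finset V} (hW : X2 G W) : Disc W G := by
  obtain ⟨x, y, -, h2, h3, C, D, h4, h5, h6, h7, h8⟩ := hW
  refine ⟨W ∩ C, W ∩ D, h7, h8, h4.mono inter_subset_right inter_subset_right, ?_, fun a ha b hb =>
    h6 a (mem_inter.1 ha).2 b (mem_inter.1 hb).2⟩
  rw [← inter_union_distrib_left, h5]
  refine inter_eq_left.2 fun w hw => ?_
  rw [mem_erase, mem_erase]
  exact ⟨fun h => h3 (h ▸ hw), fun h => h2 (h ▸ hw), mem_univ _⟩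

theorem no2_mono {G G' : Finset (Sym2 V)} (h : G ⊆ G') (hG : No2 G) : No2 G' :=
  fun x y hxy hd => hG x y hxy (H85TF.disc_anti h hd)

theorem ham_mono {G G' : Finset (Sym2 V)} (h : G ⊆ G') (hG : Ham G) : Ham G' := by
  obtain ⟨l, h1, h2, h3, h4, h5⟩ := hG
  exact ⟨l, h1, h2, h3, h4.imp fun a b hab => h hab, fun a ha b hb => h (h5 a ha b hb)⟩

/-- THE FUNCTOR STEP for 'covered, and 3-connected or Hamiltonian'. -/
theorem formD {cross : Sym2 V → Sym2 V → Prop} (hsymm : ∀ e f, cross e f → cross f e)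
    (hHD : ∀ W, HD cross W) (h2 : 2 ≤ Fintype.card V) (Pi : Finset (Sym2 V) → Finset V → Prop)
    (mono : ∀ G G' : Finset (Sym2 V), G ⊆ G' → G' ⊆ LW univ → TC G → ∀ A, Pi G A → Pi G' A)
    (dn : ∀ G : Finset (Sym2 V), G ⊆ LW univ → TC G → ∀ A B : Finset V, A ⊆ B → Pi G B → Pi G A)
    (L1 : ∀ G : Finset (Sym2 V), G ⊆ LW univ → TC G → ¬ No2 G → ¬ Ham G → AC (Ch (X2 G)))
    (L2 : ∀ G : Finset (Sym2 V), G ⊆ LW univ → TC G → ¬ Pi G univ →
      AC (Ch fun W : Finset V => Disc W G ∧ (¬ Pi G W ∨ X2 G W))) :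
    ∃ G : Finset (Sym2 V), G ⊆ LW univ ∧ Plane cross G ∧ (TC G ∧ Pi G univ ∧ (No2 G ∨ Ham G)) ∧
      2 * Fintype.card V ≤ G.card + 3 := by
  have hV : ∃ x y : V, x ≠ y := by
    obtain ⟨x, y, h⟩ := Fintype.exists_pair_of_one_lt_card (α := V) (by omega)
    exact ⟨x, y, h⟩
  refine exactX hsymm hHD hV
    (fun G W => Disc W G ∧ (TC G → ¬ Pi G W ∨ X2 G W)) (fun G => TC G ∧ Pi G univ ∧ (No2 G ∨ Ham G))
    (fun G G' hGG hG' W hW => ⟨H85TF.disc_anti hGG hW.1, fun hT =>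
      (hW.2 (tc_mono hGG hT)).imp (fun h3 h4 => h3 (mono G G' hGG hG' hT W h4)) (x2_mono hGG)⟩)
    (fun G W _ h => h.1)
    (fun G G' hGG hG' h => ⟨tc_mono hGG h.1, mono G G' hGG hG' h.1 _ h.2.1,
      h.2.2.imp (no2_mono hGG) (ham_mono hGG)⟩)
    (fun G hGL hno => ?_)
  by_cases hT : TC G
  · by_cases hP : Pi G univ
    · have h3 : ¬ (No2 G ∨ Ham G) := fun h => hno ⟨hT, hP, h⟩
      rw [not_or] at h3
      have h4 : (fun W : Finset V => Disc W G ∧ (TC G → ¬ Pi G W ∨ X2 G W)) = X2 G := by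
        funext W
        refine propext ⟨fun h => (h.2 hT).resolve_left fun h5 => h5 (dn G hGL hT W univ (subset_univ _) hP),
          fun h => ⟨x2_disc h, fun _ => Or.inr h⟩⟩
      rw [h4]
      exact L1 G hGL hT h3.1 h3.2
    · have h4 : (fun W : Finset V => Disc W G ∧ (TC G → ¬ Pi G W ∨ X2 G W)) =
          fun W => Disc W G ∧ (¬ Pi G W ∨ X2 G W) := by
        funext W
        exact propext ⟨fun h => ⟨h.1, h.2 hT⟩, fun h => ⟨h.1, fun _ => h.2⟩⟩
      rw [h4]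
      exact L2 G hGL hT hP
  · have h3 : (fun W : Finset V => Disc W G ∧ (TC G → ¬ Pi G W ∨ X2 G W)) = fun W => Disc W G := by
      funext W
      exact propext ⟨fun h => h.1, fun h => ⟨h, fun h5 => absurd h5 hT⟩⟩
    rw [h3]
    refine H30D.ac_disc G ?_
    by_contra hcon
    rw [not_or, not_exists] at hcon
    exact hT hcon

/-- FORM D0: 3-connected or Hamiltonian, from (L1) alone. -/
theorem formD0 {cross : Sym2 V → Sym2 V → Prop} (hsymm : ∀ e f, cross e f → cross f e)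
    (hHD : ∀ W, HD cross W) (h2 : 2 ≤ Fintype.card V)
    (L1 : ∀ G : Finset (Sym2 V), G ⊆ LW univ → TC G → ¬ No2 G → ¬ Ham G → AC (Ch (X2 G))) :
    ∃ G : Finset (Sym2 V), G ⊆ LW univ ∧ Plane cross G ∧ TC G ∧ (No2 G ∨ Ham G) ∧
      2 * Fintype.card V ≤ G.card + 3 := by
  obtain ⟨G, hGL, hGP, ⟨hT, -, h3⟩, h4⟩ := formD hsymm hHD h2 (fun _ _ => True) (fun _ _ _ _ _ _ _ => trivial)
    (fun _ _ _ _ _ _ _ => trivial) L1 (fun G _ _ h => absurd trivial h)
  exact ⟨G, hGL, hGP, hT, h3, h4⟩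

end H63D
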