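import Pool.Agent.Lib.H98TF.Exact
import Pool.Agent.Lib.H98TF.DrawD
import Pool.Agent.Lib.H12Q.L1
import Pool.Agent.Lib.H53E.Unc
import Pool.Agent.Lib.H35Y.Ham
import Pool.Agent.Lib.H30D.S

/-!
# H63D, file E: a plane edge set with a 2-factor which is 3-connected or contains a Hamiltonian cycle, abstract level

The acyclicity of the lower links (L2) is a hypothesis here.
-/

set_option autoImplicit false

namespace H63D

open Finset H98P H98Z H98M H63F H30F H98TF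

variable {V : Type*} [Fintype V] [DecidableEq V]

theorem x2_mono' {G G' : Finset (Sym2 V)} (h : G ⊆ G') {W : Finset V} (hW : H12Q.X2 G' W) : H12Q.X2 G W := by
  obtain ⟨x, y, h1, h2, h3, C, D, h4, h5, h6, h7⟩ := hW
  exact ⟨x, y, h1, h2, h3, C, D, h4, h5, fun a ha b hb hab => h6 a ha b hb (h hab), h7⟩

theorem x2_disc' {G : Finset (Sym2 V)} {W : Finset V} (hW : H12Q.X2 G W) : Disc W G := by
  obtain ⟨x, y, -, h2, h3, C, D, h4, h5, h6, h7, h8⟩ := hW
  refine ⟨W ∩ C, W ∩ D, h7, h8, h4.mono inter_subset_right inter_subset_right, ?_, fun a ha b hb =>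
    h6 a (mem_inter.1 ha).2 b (mem_inter.1 hb).2⟩
  rw [← inter_union_distrib_left, h5]
  refine inter_eq_left.2 fun w hw => ?_
  rw [mem_erase, mem_erase]
  exact ⟨fun h => h3 (h ▸ hw), fun h => h2 (h ▸ hw), mem_univ _⟩

/-- GENERIC FORM: `Pi` a covering predicate, `Q` an upward closed property of `G`. -/
theorem formG {cross : Sym2 V → Sym2 V → Prop} (hsymm : ∀ e f, cross e f → cross f e)
    (hHD : ∀ W, HD cross W) (h2 : 2 ≤ Fintype.card V) (Pi : Finset (Sym2 V) → Finset V → Prop)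
    (mono : ∀ G G' : Finset (Sym2 V), G ⊆ G' → G' ⊆ LW univ → TC G → ∀ A, Pi G A → Pi G' A)
    (dn : ∀ G : Finset (Sym2 V), G ⊆ LW univ → TC G → ∀ A B : Finset V, A ⊆ B → Pi G B → Pi G A)
    (Q : Finset (Sym2 V) → Prop) (hQ : ∀ G G' : Finset (Sym2 V), G ⊆ G' → Q G → Q G')
    (L1 : ∀ G : Finset (Sym2 V), G ⊆ LW univ → TC G → ¬ Q G → AC (Ch (H12Q.X2 G)))
    (L2 : ∀ G : Finset (Sym2 V), G ⊆ LW univ → TC G → ¬ Pi G univ →
      AC (Ch fun W : Finset V => Disc W G ∧ (¬ Pi G W ∨ H12Q.X2 G W))) :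
    ∃ G : Finset (Sym2 V), G ⊆ LW univ ∧ Plane cross G ∧ (TC G ∧ Pi G univ ∧ Q G) ∧
      2 * Fintype.card V ≤ G.card + 3 := by
  have hV : ∃ x y : V, x ≠ y := by
    obtain ⟨x, y, h⟩ := Fintype.exists_pair_of_one_lt_card (α := V) (by omega)
    exact ⟨x, y, h⟩
  refine exactX hsymm hHD hV
    (fun G W => Disc W G ∧ (TC G → ¬ Pi G W ∨ H12Q.X2 G W)) (fun G => TC G ∧ Pi G univ ∧ Q G)
    (fun G G' hGG hG' W hW => ⟨H85TF.disc_anti hGG hW.1, fun hT =>
      (hW.2 (tc_mono hGG hT)).imp (fun h3 h4 => h3 (mono G G' hGG hG' hT W h4)) (x2_mono' hGG)⟩)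
    (fun G W _ h => h.1)
    (fun G G' hGG hG' h => ⟨tc_mono hGG h.1, mono G G' hGG hG' h.1 _ h.2.1, hQ G G' hGG h.2.2⟩)
    (fun G hGL hno => ?_)
  by_cases hT : TC G
  · by_cases hP : Pi G univ
    · have h3 : ¬ Q G := fun h => hno ⟨hT, hP, h⟩
      have h4 : (fun W : Finset V => Disc W G ∧ (TC G → ¬ Pi G W ∨ H12Q.X2 G W)) = H12Q.X2 G := by
        funext W
        refine propext ⟨fun h => (h.2 hT).resolve_left fun h5 => h5 (dn G hGL hT W univ (subset_univ _) hP),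
          fun h => ⟨x2_disc' h, fun _ => Or.inr h⟩⟩
      rw [h4]
      exact L1 G hGL hT h3
    · have h4 : (fun W : Finset V => Disc W G ∧ (TC G → ¬ Pi G W ∨ H12Q.X2 G W)) =
          fun W => Disc W G ∧ (¬ Pi G W ∨ H12Q.X2 G W) := by
        funext W
        exact propext ⟨fun h => ⟨h.1, h.2 hT⟩, fun h => ⟨h.1, fun _ => h.2⟩⟩
      rw [h4]
      exact L2 G hGL hT hP
  · have h3 : (fun W : Finset V => Disc W G ∧ (TC G → ¬ Pi G W ∨ H12Q.X2 G W)) = fun W => Disc W G := by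
      funext W
      exact propext ⟨fun h => h.1, fun h => ⟨h, fun h5 => absurd h5 hT⟩⟩
    rw [h3]
    refine H30D.ac_disc G ?_
    by_contra hcon
    rw [not_or, not_exists] at hcon
    exact hT hcon

/-- (L1) in the form needed: 2-connected, neither 3-connected nor Hamiltonian. -/
theorem l1 {G : Finset (Sym2 V)} (h3 : 3 ≤ Fintype.card V) (hGL : G ⊆ LW univ) (hT : TC G)
    (hno : ¬ (NoCut2 G ∨ H98TF.Ham G)) : AC (Ch (H12Q.X2 G)) := by
  classical
  rw [not_or] at hno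
  have hdiag : ∀ e ∈ G, ¬ e.IsDiag := by
    intro e he
    have h4 := hGL he
    unfold LW at h4
    exact (mem_filter.1 h4).2
  have hcut : ∃ x y, x ≠ y ∧ Disc ((univ.erase x).erase y) G := by
    by_contra hcon
    push Not at hcon
    exact hno.1 hcon
  have hcard : Fintype.card V + 1 ≤ G.card := by
    by_contra hcon
    exact hno.2 ⟨G, Subset.rfl, hT.1, (H35Y.dg_eq_two hdiag h3 hT.1 hT.2 (by omega)).1⟩
  obtain ⟨x, y, hxy, hd, hU⟩ := H53E.exists_unc hT.2 (by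
    rw [filter_true_of_mem hdiag]
    exact hcard) hcut
  exact H12Q.L1 hT.2 hxy hd hU

/-- FORM D, abstract level, from the lower links. -/
theorem plane_D {cross : Sym2 V → Sym2 V → Prop} (hsymm : ∀ e f, cross e f → cross f e)
    (hHD : ∀ W, HD cross W) (h3 : 3 ≤ Fintype.card V)
    (L2 : ∀ G : Finset (Sym2 V), G ⊆ LW univ → TC G → ∀ M : Finset V, ¬ Disc M G → ¬ H85TF.Cov G M →
      AC (Ch fun W : Finset V => (¬ H85TF.Cov G W ∨ H12Q.X2 G W) ∧ W ⊂ M)) :
    ∃ G : Finset (Sym2 V), G ⊆ LW univ ∧ Plane cross G ∧ TC G ∧ H85TF.Cov G univ ∧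
      (NoCut2 G ∨ H98TF.Ham G) ∧ 2 * Fintype.card V ≤ G.card + 3 := by
  obtain ⟨G, hGL, hGP, ⟨hT, hP, hQ⟩, hcard⟩ := formG hsymm hHD (by omega) H85TF.Cov
    (fun G G' hGG _ _ A hA => H85TF.cov_edges hGG hA)
    (fun G _ _ A B hAB hB => H85TF.cov_sub hAB hB)
    (fun G => NoCut2 G ∨ H98TF.Ham G)
    (fun G G' hGG h => h.imp (noCut2_mono hGG) (H98TF.ham_mono hGG))
    (fun G hGL hT hno => l1 h3 hGL hT hno)
    (fun G hGL hT hP => by
      have h4 := H30D.remove_univ (P := fun W => ¬ H85TF.Cov G W ∨ H12Q.X2 G W) (G := G)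
        (fun M hM hd => L2 G hGL hT M hd (hM.resolve_right fun h5 => hd (x2_disc' h5))) (Or.inl hP)
      have h5 : (fun W : Finset V => Disc W G ∧ (¬ H85TF.Cov G W ∨ H12Q.X2 G W)) =
          fun W => (¬ H85TF.Cov G W ∨ H12Q.X2 G W) ∧ Disc W G := by
        funext W
        exact propext and_comm
      rw [h5]
      exact h4)
  exact ⟨G, hGL, hGP, hT, hP, hQ, hcard⟩

end H63D
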