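import Pool.Agent.Lib.H63D.E
import Pool.Agent.Lib.H23TF.L2F

/-!
# H63D, file F: a plane edge set with a 2-factor which is 3-connected or contains a Hamiltonian cycle, abstract theorem
-/

set_option autoImplicit false

namespace H63D

open Finset H98P H98Z H98M H63F H30F H98TF

/-- FORM D, abstract theorem. -/
theorem planeD {V : Type} [Fintype V] [DecidableEq V] {cross : Sym2 V → Sym2 V → Prop}
    (hsymm : ∀ e f, cross e f → cross f e) (hHD : ∀ W, HD cross W) (h3 : 3 ≤ Fintype.card V) :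
    ∃ G : Finset (Sym2 V), G ⊆ LW univ ∧ Plane cross G ∧ TC G ∧ H85TF.Cov G univ ∧
      (NoCut2 G ∨ H98TF.Ham G) ∧ 2 * Fintype.card V ≤ G.card + 3 := by
  obtain ⟨G, hGL, hGP, ⟨hT, hP, hQ⟩, hcard⟩ := formG hsymm hHD (by omega) H85TF.Cov
    (fun G G' hGG _ _ A hA => H85TF.cov_edges hGG hA)
    (fun G _ _ A B hAB hB => H85TF.cov_sub hAB hB)
    (fun G => NoCut2 G ∨ H98TF.Ham G)
    (fun G G' hGG h => h.imp (noCut2_mono hGG) (H98TF.ham_mono hGG))
    (fun G hGL hT hno => l1 h3 hGL hT hno)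
    (fun G hGL hT hP => by
      have hdiag : ∀ e ∈ G, ¬ e.IsDiag := by
        intro e he
        have h4 := hGL he
        unfold LW at h4
        exact (mem_filter.1 h4).2
      have h4 := H23TF.L2 hdiag h3 hT.1 hT.2 hP
      have h5 : (fun W : Finset V => Disc W G ∧ (¬ H85TF.Cov G W ∨ H12Q.X2 G W)) =
          fun W => (¬ H85TF.Cov G W ∨ H4TF.X2 G W) ∧ Disc W G := by
        funext W
        exact propext and_comm
      rw [h5]
      exact h4)
  exact ⟨G, hGL, hGP, hT, hP, hQ, hcard⟩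

end H63D
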